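import Pool.Agent.Helper79.TL.Core
import Pool.Agent.Helper31.BrauerDefs

/-!
# TL-C5: class sums act as scalars on complex irreducible representations
-/

set_option autoImplicit false

open Module
open Pool.Agent.Helper31.Brauer

namespace Pool.Agent.Helper79.TL.C5

variable {G : Type} [Group G]

/-- The class sums commute with the group. -/
theorem classSum_comm [Fintype G] {F V : Type} [Field F] [AddCommGroup V] [Module F V]
    (ρ : Representation F G V) (g h : G) (v : V) :
    classSum ρ g (ρ h v) = ρ h (classSum ρ g v) := by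
  classical
  unfold classSum
  rw [LinearMap.sum_apply, LinearMap.sum_apply, map_sum]
  refine Finset.sum_bij' (fun x _ => h⁻¹ * x * h) (fun x _ => h * x * h⁻¹) ?_ ?_ ?_ ?_ ?_
  · intro x hx
    simp only [Finset.mem_filter, Finset.mem_univ, true_and] at hx ⊢
    exact hx.trans (isConj_iff.2 ⟨h⁻¹, by rw [inv_inv]⟩)
  · intro x hx
    simp only [Finset.mem_filter, Finset.mem_univ, true_and] at hx ⊢
    exact hx.trans (isConj_iff.2 ⟨h, rfl⟩)
  · intro x _; group
  · intro x _; group
  · intro x _
    have e : ∀ a b : G, ρ a (ρ b v) = ρ (a * b) v := fun a b => by rw [map_mul]; rfl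
    rw [e, e]
    congr 2
    group

/-- The trace of a class sum. -/
theorem trace_classSum [Fintype G] {F V : Type} [Field F] [AddCommGroup V] [Module F V]
    (ρ : Representation F G V) (g : G) :
    LinearMap.trace F V (classSum ρ g) = (Nat.card {x : G // IsConj g x} : F) * ρ.character g := by
  classical
  unfold classSum
  rw [map_sum]
  have h : ∀ x ∈ Finset.univ.filter (fun x => IsConj g x),
      LinearMap.trace F V (ρ x) = ρ.character g := by
    intro x hx
    rw [Finset.mem_filter] at hx
    obtain ⟨c, hc⟩ := isConj_iff.1 hx.2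
    rw [← hc]
    exact ρ.char_conj g c
  rw [Finset.sum_congr rfl h, Finset.sum_const, nsmul_eq_mul]
  congr 2
  rw [Nat.card_eq_fintype_card, Fintype.card_subtype]

theorem classSum_scalar [Fintype G] {F : Type} [Field F] (red : AlgInt →+* F) (lam : G → F)
    {n : ℕ} (ρ : Representation ℂ G (Fin n → ℂ)) (hρ : ρ.IsIrreducible)
    (hB : ρ.character ∈ IrrB red lam) :
    ∃ Z : G → AlgInt, (∀ g, red (Z g) = lam g) ∧
      ∀ g, classSum ρ g = (Z g : ℂ) • (LinearMap.id : (Fin n → ℂ) →ₗ[ℂ] (Fin n → ℂ)) := by
  obtain ⟨-, h⟩ := hB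
  choose Z hZ1 hZ2 using h
  refine ⟨Z, hZ2, fun g => ?_⟩
  let f : Representation.IntertwiningMap ρ ρ :=
    LinearMap.intertwiningMap_of_isIntertwiningMap ρ ρ (classSum ρ g)
      (fun h v => classSum_comm ρ g h v)
  obtain ⟨c, hc⟩ := (Representation.IsIrreducible.algebraMap_intertwiningMap_bijective_of_isAlgClosed
    (ρ := ρ)).2 f
  have hcs : classSum ρ g = c • (LinearMap.id : (Fin n → ℂ) →ₗ[ℂ] (Fin n → ℂ)) := by
    have h1 : classSum ρ g = f.toLinearMap := rfl
    rw [h1, ← hc]
    rfl
  have hn : (n : ℂ) ≠ 0 := by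
    intro h0
    have hn0 : n = 0 := by exact_mod_cast h0
    subst hn0
    obtain ⟨⟨a, b, hab⟩⟩ := (hρ.toNontrivial : Nontrivial (Subrepresentation ρ))
    apply hab
    ext v
    have hv : v = 0 := Subsingleton.elim _ _
    subst hv
    exact iff_of_true a.toSubmodule.zero_mem b.toSubmodule.zero_mem
  have h1 : ρ.character 1 = (n : ℂ) := by
    rw [Representation.char_one, Module.finrank_fin_fun]
  have h2 := trace_classSum ρ g
  rw [hcs, map_smul, LinearMap.trace_id, Module.finrank_fin_fun, smul_eq_mul, ← hZ1 g, h1] at h2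
  rw [hcs, mul_right_cancel₀ hn h2]

end Pool.Agent.Helper79.TL.C5
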